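import Pool.Agent.H99R3.Noz.CE1

/-!
# Task CE of the project H870-NOZ: the weak continuity equation in the coordinates
-/

set_option autoImplicit false

open MeasureTheory Set Filter Topology

namespace Pool.Agent.H99R3.Noz

open H870N

theorem taskCE : H870N.TaskCE := by
  intro hprof m F L1 R1 h cL cR a b c d lm lp T ε C o1 o2 o3 o4 o5 o6 o7 o8 o9 hT hh hm hmC
    hml hmr hF hFC
  obtain ⟨gpc, ggd, gg0, ggd0, gg01, gp0, -, -, ⟨Cg, hCg⟩, -, -⟩ :=
    hprof a b c d T o4 (o5.trans o6) o7 hT
  have hcLlp : cL < lp := by linarith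
  have hL1R1 : L1 < R1 := by linarith
  -- the slice functions
  set G : ℝ → ℝ := sl h F with hG
  set G1 : ℝ → ℝ := sl h (fun u => fderiv ℝ F u e0) with hG1
  set N0 : ℝ → ℝ := sl h (fun u => F u * m u) with hN0
  have he0 : ‖e0‖ = 1 := by simp [e0]
  have hdcont : ContinuousOn (fun u => fderiv ℝ F u e0) (rect L1 R1 h) :=
    (hF.continuousOn_fderiv_of_isOpen (rect_open L1 R1 h) le_rfl).clm_apply continuousOn_const
  have hdbound : ∀ u ∈ rect L1 R1 h, |fderiv ℝ F u e0| ≤ C := by
    intro u hu
    have h1 := (fderiv ℝ F u).le_opNorm e0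
    rw [he0, mul_one, Real.norm_eq_abs] at h1
    exact h1.trans (hFC u hu).2
  have hFc : ContinuousOn F (rect L1 R1 h) := hF.continuousOn
  have hFmc : ContinuousOn (fun u => F u * m u) (rect L1 R1 h) := hFc.mul hm
  have hFmb : ∀ u ∈ rect L1 R1 h, |F u * m u| ≤ C * C := by
    intro u hu
    rw [abs_mul]
    have h1 := (hFC u hu).1
    exact mul_le_mul h1 (hmC u hu) (abs_nonneg _) ((abs_nonneg _).trans h1)
  have Gd : ∀ q ∈ Ioo L1 R1, HasDerivAt G (G1 q) q := fun q hq => sl_hasDerivAt hF hFC hq
  have G1c : ContinuousOn G1 (Ioo L1 R1) := sl_contOn hdcont hdbound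
  have Gc : ContinuousOn G (Ioo L1 R1) := sl_contOn hFc (fun u hu => (hFC u hu).1)
  have N0c : ContinuousOn N0 (Ioo L1 R1) := sl_contOn hFmc hFmb
  have N0b : ∀ q ∈ Ioo L1 R1, |N0 q| ≤ C * C * (2 * h) := fun q hq => sl_bound hh hFmb hq
  -- `N0 = G` near both ends
  have N0l : ∀ q ∈ Ioo L1 R1, q < cL → N0 q = G q := by
    intro q hq hqc
    refine setIntegral_congr_fun measurableSet_Ioo (fun y hy => ?_)
    simp only
    rw [hml (pt q y) (pt_mem.2 ⟨hq, hy⟩) hqc, mul_one]
  have N0r : ∀ q ∈ Ioo L1 R1, cR < q → N0 q = G q := by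
    intro q hq hqc
    refine setIntegral_congr_fun measurableSet_Ioo (fun y hy => ?_)
    simp only
    rw [hmr (pt q y) (pt_mem.2 ⟨hq, hy⟩) hqc, mul_one]
  have hsub : ∀ {x y : ℝ}, x ∈ Ioo L1 R1 → y ∈ Ioo L1 R1 → uIcc x y ⊆ Ioo L1 R1 := by
    intro x y hx hy z hz
    rw [mem_uIcc] at hz
    rcases hz with hz | hz
    · exact ⟨hx.1.trans_le hz.1, hz.2.trans_lt hy.2⟩
    · exact ⟨hy.1.trans_le hz.1, hz.2.trans_lt hx.2⟩
  have hcL : cL ∈ Ioo L1 R1 := ⟨by linarith, by linarith⟩
  have hlp : lp ∈ Ioo L1 R1 := ⟨by linarith, by linarith⟩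
  -- antiderivative of `N0`
  set N : ℝ → ℝ := fun x => ∫ q in cL..x, N0 q with hN
  have N0int : ∀ {x y : ℝ}, x ∈ Ioo L1 R1 → y ∈ Ioo L1 R1 → IntervalIntegrable N0 volume x y :=
    fun hx hy => (N0c.mono (hsub hx hy)).intervalIntegrable
  have Nd : ∀ x ∈ Ioo L1 R1, HasDerivAt N (N0 x) x := by
    intro x hx
    exact intervalIntegral.integral_hasDerivAt_right (N0int hcL hx)
      (N0c.stronglyMeasurableAtFilter isOpen_Ioo x hx) (N0c.continuousAt (isOpen_Ioo.mem_nhds hx))
  have Nsub : ∀ {x y : ℝ}, x ∈ Ioo L1 R1 → y ∈ Ioo L1 R1 → ∫ q in x..y, N0 q = N y - N x := by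
    intro x y hx hy
    rw [hN]
    simp only
    rw [intervalIntegral.integral_interval_sub_left (N0int hcL hy) (N0int hcL hx)]
  -- the constant
  set P : ℝ := ∫ q in cL..lp, gp a b c d q * G q with hP
  have gGint : ∀ {x y : ℝ}, x ∈ Ioo L1 R1 → y ∈ Ioo L1 R1 →
      IntervalIntegrable (fun q => gp a b c d q * G q) volume x y :=
    fun hx hy => ((gpc.continuousOn).mul (Gc.mono (hsub hx hy))).intervalIntegrable
  have hPt : ∀ {x y : ℝ}, x ∈ Ioo L1 R1 → y ∈ Ioo L1 R1 → x ≤ cL → lp ≤ y →
      ∫ q in x..y, gp a b c d q * G q = P := by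
    intro x y hx hy hxc hyl
    rw [← intervalIntegral.integral_add_adjacent_intervals (gGint hx hcL) (gGint hcL hy),
      ← intervalIntegral.integral_add_adjacent_intervals (gGint hcL hlp) (gGint hlp hy)]
    have z1 : ∫ q in x..cL, gp a b c d q * G q = 0 := by
      rw [intervalIntegral.integral_congr (g := fun _ => 0)]
      · simp
      · intro q hq
        rw [uIcc_of_le hxc] at hq
        simp only
        rw [gp0 q (Or.inl (by linarith [hq.2])), zero_mul]
    have z2 : ∫ q in lp..y, gp a b c d q * G q = 0 := by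
      rw [intervalIntegral.integral_congr (g := fun _ => 0)]
      · simp
      · intro q hq
        rw [uIcc_of_le hyl] at hq
        simp only
        rw [gp0 q (Or.inr (Or.inl (by linarith [hq.1]))), zero_mul]
    rw [z1, z2, zero_add, add_zero]
  have hlmt : ∀ t ∈ Icc 0 T, lm + t ∈ Ioo L1 R1 := fun t ht =>
    ⟨by linarith [ht.1], by linarith [ht.2]⟩
  have hlpt : ∀ t ∈ Icc 0 T, lp + t ∈ Ioo L1 R1 := fun t ht =>
    ⟨by linarith [ht.1], by linarith [ht.2]⟩
  -- formula for the integral
  have form : ∀ t ∈ Icc 0 T, ∫ u in rect (lm + t) (lp + t) h,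
      F u * (m u + ε * et a b c d T t (u 0)) =
      N (lp + t) - N (lm + t) - ε * (t * (T - t)) * P := by
    intro t ht
    have hl := hlmt t ht
    have hr := hlpt t ht
    have hmono : rect (lm + t) (lp + t) h ⊆ rect L1 R1 h := rect_mono hl.1.le hr.2.le
    have hc0 : Continuous (fun u : E2 => u 0) := by fun_prop
    have hetc : Continuous (fun u : E2 => ε * et a b c d T t (u 0)) := by
      unfold et
      exact continuous_const.mul (continuous_const.mul (gpc.comp hc0))
    have hcont : ContinuousOn (fun u => F u * (m u + ε * et a b c d T t (u 0)))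
        (rect (lm + t) (lp + t) h) :=
      (hFc.mono hmono).mul ((hm.mono hmono).add hetc.continuousOn)
    rw [fubini (integrableOn_rect (C := C * (C + |ε| * (|t * (T - t)| * Cg))) hcont ?_)]
    · have e1 : ∀ q ∈ Ioo (lm + t) (lp + t),
          ∫ y in Ioo (-h) h, F (pt q y) * (m (pt q y) + ε * et a b c d T t ((pt q y) 0)) =
          N0 q - ε * (t * (T - t)) * (gp a b c d q * G q) := by
        intro q hq
        have hq' : q ∈ Ioo L1 R1 := ⟨hl.1.trans hq.1, hq.2.trans hr.2⟩
        have i1 : Integrable (fun y => F (pt q y) * m (pt q y))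
            (volume.restrict (Ioo (-h) h)) := by
          refine Integrable.of_bound (sl_meas hFmc hq') (C * C) ?_
          refine (ae_restrict_iff' measurableSet_Ioo).2 (Eventually.of_forall fun y hy => ?_)
          rw [Real.norm_eq_abs]
          exact hFmb _ (pt_mem.2 ⟨hq', hy⟩)
        have i2 : Integrable (fun y => F (pt q y)) (volume.restrict (Ioo (-h) h)) := by
          refine Integrable.of_bound (sl_meas hFc hq') C ?_
          refine (ae_restrict_iff' measurableSet_Ioo).2 (Eventually.of_forall fun y hy => ?_)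
          rw [Real.norm_eq_abs]
          exact (hFC _ (pt_mem.2 ⟨hq', hy⟩)).1
        have e2 : (fun y => F (pt q y) * (m (pt q y) + ε * et a b c d T t ((pt q y) 0))) =
            fun y => F (pt q y) * m (pt q y) -
              (ε * (t * (T - t)) * gp a b c d q) * F (pt q y) := by
          funext y
          rw [pt_zero]
          unfold et
          ring
        rw [e2, integral_sub i1 (i2.const_mul _), integral_const_mul]
        change N0 q - (ε * (t * (T - t)) * gp a b c d q) * G q = _
        ring
      rw [setIntegral_congr_fun measurableSet_Ioo e1]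
      have hle : lm + t ≤ lp + t := by linarith
      rw [← integral_Ioc_eq_integral_Ioo, ← intervalIntegral.integral_of_le hle,
        intervalIntegral.integral_sub (N0int hl hr) ((gGint hl hr).const_mul _),
        intervalIntegral.integral_const_mul, Nsub hl hr,
        hPt hl hr (by linarith [ht.2]) (by linarith [ht.1])]
    · intro u hu
      have hu' := hmono hu
      have h1 := (hFC u hu').1
      have hC0 : 0 ≤ C := (abs_nonneg _).trans h1
      rw [abs_mul]
      refine mul_le_mul h1 ?_ (abs_nonneg _) hC0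
      refine (abs_add_le _ _).trans (add_le_add (hmC u hu') ?_)
      rw [abs_mul]
      refine mul_le_mul_of_nonneg_left ?_ (abs_nonneg _)
      unfold et
      rw [abs_mul, abs_neg]
      exact mul_le_mul_of_nonneg_left (hCg _) (abs_nonneg _)
  refine ⟨?_, ?_⟩
  · -- Lipschitz
    set B : ℝ := C * C * (2 * h) with hB
    have hB0 : 0 ≤ B := by
      have := N0b cL hcL
      exact (abs_nonneg _).trans this
    have hNlip : ∀ x ∈ Ioo L1 R1, ∀ y ∈ Ioo L1 R1, |N x - N y| ≤ B * |x - y| := by
      intro x hx y hy
      rw [← Nsub hy hx, ← Real.norm_eq_abs]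
      refine intervalIntegral.norm_integral_le_of_norm_le_const (fun q hq => ?_)
      rw [Real.norm_eq_abs]
      exact N0b q (hsub hy hx (uIoc_subset_uIcc hq))
    have hK : 0 ≤ 2 * B + |ε * P| * T := by positivity
    refine ⟨⟨2 * B + |ε * P| * T, hK⟩, ?_⟩
    refine LipschitzOnWith.of_dist_le_mul (fun s hs t ht => ?_)
    rw [Real.dist_eq, Real.dist_eq]
    rw [form s hs, form t ht]
    have a1 := hNlip _ (hlpt s hs) _ (hlpt t ht)
    have a2 := hNlip _ (hlmt s hs) _ (hlmt t ht)
    have a3 : |s * (T - s) - t * (T - t)| ≤ T * |s - t| := by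
      have : s * (T - s) - t * (T - t) = (T - s - t) * (s - t) := by ring
      rw [this, abs_mul]
      refine mul_le_mul_of_nonneg_right ?_ (abs_nonneg _)
      rw [abs_le]
      constructor <;> linarith [hs.1, hs.2, ht.1, ht.2]
    have e1 : lp + s - (lp + t) = s - t := by ring
    have e2 : lm + s - (lm + t) = s - t := by ring
    rw [e1] at a1
    rw [e2] at a2
    have e3 : N (lp + s) - N (lm + s) - ε * (s * (T - s)) * P -
        (N (lp + t) - N (lm + t) - ε * (t * (T - t)) * P) =
        (N (lp + s) - N (lp + t)) - (N (lm + s) - N (lm + t)) -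
          (ε * P) * (s * (T - s) - t * (T - t)) := by ring
    rw [e3]
    calc |(N (lp + s) - N (lp + t)) - (N (lm + s) - N (lm + t)) -
          (ε * P) * (s * (T - s) - t * (T - t))|
        ≤ |(N (lp + s) - N (lp + t)) - (N (lm + s) - N (lm + t))| +
          |(ε * P) * (s * (T - s) - t * (T - t))| := abs_sub _ _
      _ ≤ (|N (lp + s) - N (lp + t)| + |N (lm + s) - N (lm + t)|) +
          |(ε * P) * (s * (T - s) - t * (T - t))| := by
          gcongr
          exact abs_sub _ _
      _ ≤ (B * |s - t| + B * |s - t|) + |ε * P| * (T * |s - t|) := by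
          rw [abs_mul (ε * P)]
          gcongr
      _ = (2 * B + |ε * P| * T) * |s - t| := by ring
  · intro t ht
    have htc : t ∈ Icc 0 T := ⟨ht.1.le, ht.2.le⟩
    have hl := hlmt t htc
    have hr := hlpt t htc
    have hmono : rect (lm + t) (lp + t) h ⊆ rect L1 R1 h := rect_mono hl.1.le hr.2.le
    -- derivative of the formula
    have hd : HasDerivAt (fun t => N (lp + t) - N (lm + t) - ε * (t * (T - t)) * P)
        (N0 (lp + t) - N0 (lm + t) - ε * (T - 2 * t) * P) t := by
      have d1 : HasDerivAt (fun t => N (lp + t)) (N0 (lp + t)) t :=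
        HasDerivAt.comp_const_add lp t (Nd (lp + t) hr)
      have d2 : HasDerivAt (fun t => N (lm + t)) (N0 (lm + t)) t :=
        HasDerivAt.comp_const_add lm t (Nd (lm + t) hl)
      have d3 : HasDerivAt (fun t => ε * (t * (T - t)) * P) (ε * (T - 2 * t) * P) t := by
        have e := ((hasDerivAt_id t).mul ((hasDerivAt_id t).const_sub T)).const_mul ε
        have e' := e.mul_const P
        refine e'.congr_deriv ?_
        simp only [id]
        ring
      exact (d1.sub d2).sub d3
    -- the right hand side
    have hc0 : Continuous (fun u : E2 => u 0) := by fun_prop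
    have ggc : Continuous (gg a b c d) :=
      continuous_iff_continuousAt.2 fun x => (ggd x).continuousAt
    have hTc : Continuous (fun u : E2 => 1 + ε * Th a b c d T t (u 0)) := by
      unfold Th
      exact continuous_const.add (continuous_const.mul (continuous_const.mul (ggc.comp hc0)))
    have hcont : ContinuousOn (fun u => fderiv ℝ F u e0 * (1 + ε * Th a b c d T t (u 0)))
        (rect (lm + t) (lp + t) h) := (hdcont.mono hmono).mul hTc.continuousOn
    have hrhs : ∫ u in rect (lm + t) (lp + t) h,
        fderiv ℝ F u e0 * (1 + ε * Th a b c d T t (u 0)) =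
        N0 (lp + t) - N0 (lm + t) - ε * (T - 2 * t) * P := by
      rw [fubini (integrableOn_rect (C := C * (1 + |ε| * (|T - 2 * t| * 1))) hcont ?_)]
      · have e1 : ∀ q ∈ Ioo (lm + t) (lp + t),
            ∫ y in Ioo (-h) h, fderiv ℝ F (pt q y) e0 *
              (1 + ε * Th a b c d T t ((pt q y) 0)) =
            (1 + ε * (T - 2 * t) * gg a b c d q) * G1 q := by
          intro q hq
          have e2 : (fun y => fderiv ℝ F (pt q y) e0 * (1 + ε * Th a b c d T t ((pt q y) 0))) =
              fun y => (1 + ε * (T - 2 * t) * gg a b c d q) * fderiv ℝ F (pt q y) e0 := by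
            funext y
            rw [pt_zero]
            unfold Th
            ring
          rw [e2, integral_const_mul]
          rfl
        rw [setIntegral_congr_fun measurableSet_Ioo e1]
        have hle : lm + t ≤ lp + t := by linarith
        rw [← integral_Ioc_eq_integral_Ioo, ← intervalIntegral.integral_of_le hle]
        rw [intervalIntegral.integral_mul_deriv_eq_deriv_mul
          (u := fun q => 1 + ε * (T - 2 * t) * gg a b c d q) (v := G)
          (u' := fun q => ε * (T - 2 * t) * gp a b c d q) (v' := G1)]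
        · rw [gg0 (lm + t) (by linarith [ht.2]), ggd0 (lp + t) (by linarith [ht.1])]
          have e3 : (fun x => ε * (T - 2 * t) * gp a b c d x * G x) =
              fun x => (ε * (T - 2 * t)) * (gp a b c d x * G x) := by
            funext x; ring
          rw [e3, intervalIntegral.integral_const_mul,
            hPt hl hr (by linarith [ht.2]) (by linarith [ht.1]),
            N0l (lm + t) hl (by linarith [ht.2]), N0r (lp + t) hr (by linarith [ht.1])]
          ring
        · intro q _
          exact ((ggd q).const_mul (ε * (T - 2 * t))).const_add 1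
        · intro q hq
          exact Gd q (hsub hl hr hq)
        · exact (continuous_const.mul gpc).intervalIntegrable _ _
        · exact (G1c.mono (hsub hl hr)).intervalIntegrable
      · intro u hu
        have hu' := hmono hu
        have h1 := hdbound u hu'
        have hC0 : 0 ≤ C := (abs_nonneg _).trans h1
        rw [abs_mul]
        refine mul_le_mul h1 ?_ (abs_nonneg _) hC0
        refine (abs_add_le _ _).trans (add_le_add (by simp) ?_)
        rw [abs_mul]
        refine mul_le_mul_of_nonneg_left ?_ (abs_nonneg _)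
        unfold Th
        rw [abs_mul]
        refine mul_le_mul_of_nonneg_left ?_ (abs_nonneg _)
        rw [abs_of_nonneg (gg01 _).1]
        exact (gg01 _).2
    rw [hrhs]
    refine hd.congr_of_eventuallyEq ?_
    filter_upwards [Ioo_mem_nhds ht.1 ht.2] with s hs
    exact form s ⟨hs.1.le, hs.2.le⟩

end Pool.Agent.H99R3.Noz
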