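import Pool.Agent.H870R4.Noz.Stmts

/-!
# Task CE of the project H870-NOZ, preliminaries: Fubini on rectangles and slices
-/

set_option autoImplicit false

open MeasureTheory Set Filter Topology

namespace Pool.Agent.H99R3.Noz

open H870N

/-- the point with coordinates `q, y` -/
noncomputable def pt (q y : ℝ) : E2 := WithLp.toLp 2 ![q, y]

@[simp] lemma pt_zero (q y : ℝ) : pt q y 0 = q := rfl
@[simp] lemma pt_one (q y : ℝ) : pt q y 1 = y := rfl

lemma pt_mem {L R h q y : ℝ} : pt q y ∈ rect L R h ↔ q ∈ Ioo L R ∧ y ∈ Ioo (-h) h := by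
  unfold rect
  simp only [mem_ofPred_eq, pt_zero, pt_one, abs_lt, mem_Ioo]
  tauto

lemma pt_eq (q y : ℝ) : pt q y = q • e0 + y • e1 := by
  ext i
  fin_cases i <;> simp [pt, e0, e1]

lemma pt_cont : Continuous (fun z : ℝ × ℝ => pt z.1 z.2) := by
  simp only [pt_eq]
  fun_prop

lemma pt_hasDerivAt (q y : ℝ) : HasDerivAt (fun q => pt q y) e0 q := by
  simp only [pt_eq]
  simpa using ((hasDerivAt_id q).smul_const e0).add_const (y • e1)

/-- the measurable equivalence -/
noncomputable def eqv : ℝ × ℝ ≃ᵐ E2 :=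
  (MeasurableEquiv.finTwoArrow (α := ℝ)).symm.trans (MeasurableEquiv.toLp 2 (Fin 2 → ℝ))

lemma eqv_apply (z : ℝ × ℝ) : eqv z = pt z.1 z.2 := by
  rfl

lemma eqv_mp : MeasurePreserving eqv volume volume := by
  refine MeasurePreserving.trans ((volume_preserving_finTwoArrow ℝ).symm _) ?_
  exact (EuclideanSpace.volume_preserving_symm_measurableEquiv_toLp (Fin 2)).symm

lemma rect_open (L R h : ℝ) : IsOpen (rect L R h) := by
  unfold rect
  have c0 : Continuous (fun u : E2 => u 0) := by fun_prop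
  have c1 : Continuous (fun u : E2 => u 1) := by fun_prop
  exact (isOpen_lt continuous_const c0).inter ((isOpen_lt c0 continuous_const).inter
    (isOpen_lt c1.abs continuous_const))

lemma eqv_pre (L R h : ℝ) : eqv ⁻¹' (rect L R h) = Ioo L R ×ˢ Ioo (-h) h := by
  ext z
  rw [mem_preimage, eqv_apply, pt_mem, mem_prod]

lemma rect_vol (L R h : ℝ) : volume (rect L R h) < ⊤ := by
  rw [← eqv_mp.measure_preimage (rect_open L R h).measurableSet.nullMeasurableSet, eqv_pre,
    Measure.volume_eq_prod, Measure.prod_prod]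
  exact ENNReal.mul_lt_top measure_Ioo_lt_top measure_Ioo_lt_top

/-- Fubini on a rectangle -/
lemma fubini {L R h : ℝ} {f : E2 → ℝ} (hf : IntegrableOn f (rect L R h)) :
    ∫ u in rect L R h, f u = ∫ q in Ioo L R, ∫ y in Ioo (-h) h, f (pt q y) := by
  have h1 := eqv_mp.setIntegral_preimage_emb eqv.measurableEmbedding f (rect L R h)
  rw [← h1, eqv_pre, Measure.volume_eq_prod, setIntegral_prod]
  · rfl
  · have h2 := (eqv_mp.integrableOn_comp_preimage eqv.measurableEmbedding (f := f)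
      (s := rect L R h)).2 hf
    rw [eqv_pre] at h2
    exact h2

lemma integrableOn_rect {L R h : ℝ} {f : E2 → ℝ} {C : ℝ} (hc : ContinuousOn f (rect L R h))
    (hb : ∀ u ∈ rect L R h, |f u| ≤ C) : IntegrableOn f (rect L R h) := by
  have : IsFiniteMeasure (volume.restrict (rect L R h)) :=
    ⟨by rw [Measure.restrict_apply_univ]; exact rect_vol L R h⟩
  refine Integrable.of_bound (hc.aestronglyMeasurable (rect_open L R h).measurableSet) C ?_
  exact (ae_restrict_iff' (rect_open L R h).measurableSet).2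
    (Eventually.of_forall fun u hu => by rw [Real.norm_eq_abs]; exact hb u hu)

lemma rect_mono {L R L' R' h : ℝ} (h1 : L' ≤ L) (h2 : R ≤ R') : rect L R h ⊆ rect L' R' h := by
  intro u hu
  exact ⟨lt_of_le_of_lt h1 hu.1, lt_of_lt_of_le hu.2.1 h2, hu.2.2⟩

/-- slice integrals -/
noncomputable def sl (h : ℝ) (f : E2 → ℝ) (q : ℝ) : ℝ := ∫ y in Ioo (-h) h, f (pt q y)

lemma pt_slice_cont (q : ℝ) : Continuous (fun y => pt q y) :=
  pt_cont.comp (continuous_const.prodMk continuous_id)

lemma pt_slice_cont' (y : ℝ) : Continuous (fun q => pt q y) :=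
  pt_cont.comp (continuous_id.prodMk continuous_const)

lemma sl_meas {L R h : ℝ} {f : E2 → ℝ} (hc : ContinuousOn f (rect L R h)) {q : ℝ}
    (hq : q ∈ Ioo L R) :
    AEStronglyMeasurable (fun y => f (pt q y)) (volume.restrict (Ioo (-h) h)) := by
  refine ContinuousOn.aestronglyMeasurable ?_ measurableSet_Ioo
  exact hc.comp (pt_slice_cont q).continuousOn (fun y hy => pt_mem.2 ⟨hq, hy⟩)

lemma sl_contOn {L R h C : ℝ} {f : E2 → ℝ} (hc : ContinuousOn f (rect L R h))
    (hb : ∀ u ∈ rect L R h, |f u| ≤ C) : ContinuousOn (sl h f) (Ioo L R) := by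
  unfold sl
  refine continuousOn_of_dominated (bound := fun _ => C) (fun q hq => sl_meas hc hq) ?_ ?_ ?_
  · intro q hq
    refine (ae_restrict_iff' measurableSet_Ioo).2 (Eventually.of_forall fun y hy => ?_)
    rw [Real.norm_eq_abs]
    exact hb _ (pt_mem.2 ⟨hq, hy⟩)
  · exact integrableOn_const (hs := measure_Ioo_lt_top.ne)
  · refine (ae_restrict_iff' measurableSet_Ioo).2 (Eventually.of_forall fun y hy => ?_)
    exact hc.comp (pt_slice_cont' y).continuousOn (fun q hq => pt_mem.2 ⟨hq, hy⟩)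

lemma sl_bound {L R h C : ℝ} {f : E2 → ℝ} (hh : 0 < h)
    (hb : ∀ u ∈ rect L R h, |f u| ≤ C) {q : ℝ} (hq : q ∈ Ioo L R) : |sl h f q| ≤ C * (2 * h) := by
  unfold sl
  have h1 := norm_setIntegral_le_of_norm_le_const (μ := volume) (s := Ioo (-h) h)
    (f := fun y => f (pt q y)) (C := C) measure_Ioo_lt_top (fun y hy => by
      rw [Real.norm_eq_abs]; exact hb _ (pt_mem.2 ⟨hq, hy⟩))
  rw [Real.norm_eq_abs] at h1
  have h2 : volume.real (Ioo (-h) h) = 2 * h := by
    rw [Measure.real, Real.volume_Ioo, ENNReal.toReal_ofReal (by linarith)]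
    ring
  rwa [h2] at h1

lemma sl_hasDerivAt {L R h C : ℝ} {F : E2 → ℝ} (hF : ContDiffOn ℝ 1 F (rect L R h))
    (hb : ∀ u ∈ rect L R h, |F u| ≤ C ∧ ‖fderiv ℝ F u‖ ≤ C) {q : ℝ} (hq : q ∈ Ioo L R) :
    HasDerivAt (sl h F) (sl h (fun u => fderiv ℝ F u e0) q) q := by
  have hcont : ContinuousOn (fun u => fderiv ℝ F u e0) (rect L R h) :=
    (hF.continuousOn_fderiv_of_isOpen (rect_open L R h) le_rfl).clm_apply continuousOn_const
  have he0 : ‖e0‖ = 1 := by simp [e0]
  have hbound : ∀ u ∈ rect L R h, |fderiv ℝ F u e0| ≤ C := by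
    intro u hu
    have h1 := (fderiv ℝ F u).le_opNorm e0
    rw [he0, mul_one, Real.norm_eq_abs] at h1
    exact h1.trans (hb u hu).2
  have key := hasDerivAt_integral_of_dominated_loc_of_deriv_le
    (μ := volume.restrict (Ioo (-h) h)) (F := fun q y => F (pt q y))
    (F' := fun q y => fderiv ℝ F (pt q y) e0) (bound := fun _ => C) (x₀ := q)
    (s := Ioo L R) (Ioo_mem_nhds hq.1 hq.2) ?_ ?_ ?_ ?_ ?_ ?_
  · exact key.2
  · filter_upwards [Ioo_mem_nhds hq.1 hq.2] with x hx
    exact sl_meas hF.continuousOn hx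
  · refine Integrable.of_bound (sl_meas hF.continuousOn hq) C ?_
    refine (ae_restrict_iff' measurableSet_Ioo).2 (Eventually.of_forall fun y hy => ?_)
    rw [Real.norm_eq_abs]
    exact (hb _ (pt_mem.2 ⟨hq, hy⟩)).1
  · exact sl_meas hcont hq
  · refine (ae_restrict_iff' measurableSet_Ioo).2 (Eventually.of_forall fun y hy x hx => ?_)
    rw [Real.norm_eq_abs]
    exact hbound _ (pt_mem.2 ⟨hx, hy⟩)
  · exact integrableOn_const (hs := measure_Ioo_lt_top.ne)
  · refine (ae_restrict_iff' measurableSet_Ioo).2 (Eventually.of_forall fun y hy x hx => ?_)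
    have h1 : pt x y ∈ rect L R h := pt_mem.2 ⟨hx, hy⟩
    have h2 : HasFDerivAt F (fderiv ℝ F (pt x y)) (pt x y) :=
      ((hF.contDiffAt ((rect_open L R h).mem_nhds h1)).differentiableAt (by norm_num)).hasFDerivAt
    exact h2.comp_hasDerivAt x (pt_hasDerivAt x y)

end Pool.Agent.H99R3.Noz
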